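import Mathlib
import Pool.Agent.Q215.TD.Stm

/-!
# Job TD-FVAL (project TD of helper215): values of the map
-/

set_option autoImplicit false

namespace Pool.Agent.Q182.TD

open Pool.Agent.Q215.TD

variable {n : ℕ}

theorem qn_nonneg (w : W n) : 0 ≤ qn w := by
  unfold qn
  positivity

theorem qn_tw (ρ a : ℝ) (w : W n) : qn (tw ρ a w) = qn w := by
  unfold qn tw
  simp only [norm_mul, Complex.norm_exp_ofReal_mul_I, one_mul]

theorem bump_congr {ρ : ℝ} {w w' : W n} (h : qn w = qn w') : bump ρ w = bump ρ w' := by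
  unfold bump
  rw [h]

theorem bump_zero {ρ : ℝ} (hρ : 0 < ρ) {w : W n} (h : ρ ^ 2 ≤ qn w) : bump ρ w = 0 := by
  unfold bump
  apply Real.smoothTransition.zero_of_nonpos
  have h1 : 0 < ρ ^ 2 := by positivity
  have h2 : 2 ≤ 2 * qn w / ρ ^ 2 := by
    rw [le_div_iff₀ h1]
    linarith
  linarith

theorem tw_zero (ρ : ℝ) (w : W n) : tw ρ 0 w = w := by
  unfold tw
  simp

theorem tw_tw (ρ a b : ℝ) (w : W n) : tw ρ a (tw ρ b w) = tw ρ (a + b) w := by
  have h : bump ρ (tw ρ b w) = bump ρ w := bump_congr (qn_tw ρ b w)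
  unfold tw at h ⊢
  rw [h]
  apply Prod.ext
  · simp only
    rw [← mul_assoc, ← Complex.exp_add]
    push_cast
    ring_nf
  · rfl

theorem dtw_zero {ρ : ℝ} (hρ : 0 < ρ) (a : ℝ) {w : W n} (h : ρ ^ 2 ≤ qn w) : dtw ρ a w = 0 := by
  unfold dtw tw
  rw [bump_zero hρ h]
  simp

theorem rad_pos (k : ℕ) : 0 < rad k := by
  unfold rad
  positivity

theorem rad_anti {k l : ℕ} (h : k ≤ l) : rad l ≤ rad k := by
  unfold rad
  have : (k : ℝ) ≤ l := Nat.cast_le.mpr h
  gcongr

theorem rad_le (k : ℕ) : rad k ≤ 1 / 32 := by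
  have h := rad_anti (Nat.zero_le k)
  unfold rad at h ⊢
  norm_num at h ⊢
  exact h

theorem abs_rp (k : ℕ) : |rp k| = 1 / ((k : ℝ) + 1) := by
  unfold rp
  rw [abs_div, abs_pow, abs_neg, abs_one, one_pow, abs_of_pos (by positivity : (0 : ℝ) < (k : ℝ) + 1)]

theorem re_close {w c : W n} {r : ℝ} (hr : 0 < r) (h : qn (w - c) < r ^ 2) :
    |w.1.re - c.1.re| < r := by
  have h1 : ‖w.1 - c.1‖ ^ 2 ≤ qn (w - c) := by
    unfold qn
    have : 0 ≤ ‖(w - c).2‖ ^ 2 := by positivity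
    have h2 : (w - c).1 = w.1 - c.1 := rfl
    rw [h2]
    linarith
  have h2 : ‖w.1 - c.1‖ < r := by
    apply lt_of_pow_lt_pow_left₀ 2 hr.le
    linarith
  have h3 := Complex.abs_re_le_norm (w.1 - c.1)
  rw [Complex.sub_re] at h3
  exact h3.trans_lt h2

theorem disj_lt (x : ℕ → ℝ) (w : W n) {k l : ℕ} (hkl : k < l)
    (h1 : qn (w - cen x k) < (2 * rad k) ^ 2) (h2 : qn (w - cen x l) < (2 * rad l) ^ 2) : False := by
  have e1 := re_close (by have := rad_pos k; positivity) h1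
  have e2 := re_close (by have := rad_pos l; positivity) h2
  have c1 : (cen x k : W n).1.re = rp k := rfl
  have c2 : (cen x l : W n).1.re = rp l := rfl
  rw [c1] at e1
  rw [c2] at e2
  have e3 : |rp k| - |rp l| ≤ |rp k - rp l| := abs_sub_abs_le_abs_sub _ _
  have e4 : |rp k - rp l| < 2 * rad k + 2 * rad l := by
    have : rp k - rp l = (w.1.re - rp l) - (w.1.re - rp k) := by ring
    rw [this]
    have := abs_sub (w.1.re - rp l) (w.1.re - rp k)
    linarith
  have e5 := rad_anti hkl.le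
  rw [abs_rp, abs_rp] at e3
  have e6 : 1 / ((l : ℝ) + 1) ≤ 1 / ((k : ℝ) + 2) := by
    have : (k : ℝ) + 1 ≤ l := by exact_mod_cast hkl
    apply one_div_le_one_div_of_le (by positivity)
    linarith
  have e7 : 4 * rad k ≤ 1 / ((k : ℝ) + 1) - 1 / ((k : ℝ) + 2) := by
    unfold rad
    have hk : (0 : ℝ) ≤ k := Nat.cast_nonneg k
    rw [div_sub_div _ _ (by positivity) (by positivity), mul_one_div, div_le_div_iff₀ (by positivity)
      (by positivity)]
    nlinarith
  linarith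

theorem disj (x : ℕ → ℝ) (w : W n) (k l : ℕ)
    (h1 : qn (w - cen x k) < (2 * rad k) ^ 2) (h2 : qn (w - cen x l) < (2 * rad l) ^ 2) : k = l := by
  rcases lt_trichotomy k l with h | h | h
  · exact (disj_lt x w h h1 h2).elim
  · exact h
  · exact (disj_lt x w h h2 h1).elim

theorem other (x : ℕ → ℝ) (w : W n) {k l : ℕ} (h1 : qn (w - cen x k) < rad k ^ 2) (hl : l ≠ k) :
    rad l ^ 2 ≤ qn (w - cen x l) := by
  by_contra h
  push Not at h
  apply hl
  have p1 := rad_pos k
  have p2 := rad_pos l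
  refine disj x w l k (h.trans ?_) (h1.trans ?_)
  · nlinarith
  · nlinarith

theorem val_in (N : ℕ → ℕ) (e : ℝ) (x : ℕ → ℝ) (w : W n) (k : ℕ)
    (h : qn (w - cen x k) < rad k ^ 2) :
    FF N e x w = cen x k + tw (rad k) (e / N k) (w - cen x k) := by
  unfold FF
  rw [tsum_eq_single k (fun l hl => dtw_zero (rad_pos l) _ (other x w h hl))]
  unfold dtw
  abel

theorem val_qn (N : ℕ → ℕ) (e : ℝ) (x : ℕ → ℝ) (w : W n) (k : ℕ)
    (h : qn (w - cen x k) < rad k ^ 2) : qn (FF N e x w - cen x k) < rad k ^ 2 := by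
  rw [val_in N e x w k h, add_sub_cancel_left, qn_tw]
  exact h

theorem val_out (N : ℕ → ℕ) (e : ℝ) (x : ℕ → ℝ) (w : W n)
    (h : ∀ k, rad k ^ 2 ≤ qn (w - cen x k)) : FF N e x w = w := by
  unfold FF
  have : (fun k => dtw (rad k) (e / N k) (w - cen x k)) = fun _ => 0 := by
    funext k
    exact dtw_zero (rad_pos k) _ (h k)
  rw [this, tsum_zero, add_zero]

theorem norm_le_qn (w : W n) : ‖w‖ ^ 2 ≤ qn w := by
  unfold qn
  have h1 : 0 ≤ ‖w.1‖ ^ 2 := by positivity
  have h2 : 0 ≤ ‖w.2‖ ^ 2 := by positivity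
  rw [Prod.norm_def]
  rcases max_choice ‖w.1‖ ‖w.2‖ with h | h <;> rw [h] <;> linarith

theorem ht_mem (x : ℕ → ℝ) (k : ℕ) : |ht x k| ≤ 1 := by
  unfold ht
  split_ifs
  · unfold Pool.Agent.Q215.TD.sq
    rw [abs_le]
    constructor
    · have := le_max_left (1 / 4 : ℝ) (min (3 / 4) (x (k / 2)))
      linarith
    · apply max_le (by norm_num)
      exact (min_le_left _ _).trans (by norm_num)
  · unfold qs
    have h := (TopologicalSpace.denseSeq (Set.Icc (0 : ℝ) 1) (k / 2).unpair.1).2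
    rw [abs_le]
    exact ⟨by linarith [h.1], h.2⟩

theorem norm_cen (x : ℕ → ℝ) (k : ℕ) : ‖(cen x k : W n)‖ ≤ 2 := by
  unfold cen
  rw [Prod.norm_def]
  apply max_le
  · have h1 := Complex.norm_le_abs_re_add_abs_im (⟨rp k, ht x k⟩ : ℂ)
    have h2 : |rp k| ≤ 1 := by
      rw [abs_rp]
      have hk : (0 : ℝ) ≤ k := Nat.cast_nonneg k
      rw [div_le_one (by positivity)]
      linarith
    have h3 := ht_mem x k
    simp only at h1
    linarith
  · simp

theorem norm_lt (x : ℕ → ℝ) (w : W n) (k : ℕ) (h : qn (w - cen x k) < rad k ^ 2) : ‖w‖ < 3 := by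
  have h1 : ‖w - cen x k‖ < rad k := by
    apply lt_of_pow_lt_pow_left₀ 2 (rad_pos k).le
    exact (norm_le_qn _).trans_lt h
  have h2 := norm_cen (n := n) x k
  have h3 := rad_le k
  have h4 : ‖w‖ ≤ ‖w - cen x k‖ + ‖(cen x k : W n)‖ := by
    have := norm_add_le (w - cen x k) (cen x k)
    rwa [sub_add_cancel] at this
  linarith

theorem t_FVAL : S_FVAL := by
  intro n N _ e _ x
  refine ⟨disj x, fun w k h => ⟨val_in N e x w k h, val_qn N e x w k h⟩, val_out N e x, ?_, ?_, ?_⟩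
  · intro w
    by_cases h : ∃ k, qn (w - cen x k) < rad k ^ 2
    · obtain ⟨k, hk⟩ := h
      rw [val_in N (-e) x _ k (val_qn N e x w k hk), val_in N e x w k hk, add_sub_cancel_left, tw_tw,
        ← add_div, neg_add_cancel, zero_div, tw_zero, add_sub_cancel]
    · push Not at h
      rw [val_out N e x w h, val_out N (-e) x w h]
  · intro w hw
    apply val_out
    intro k
    by_contra h
    push Not at h
    exact absurd (norm_lt x w k h) (not_lt.mpr hw)
  · intro w hw
    by_cases h : ∃ k, qn (w - cen x k) < rad k ^ 2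
    · obtain ⟨k, hk⟩ := h
      exact norm_lt x _ k (val_qn N e x w k hk)
    · push Not at h
      rw [val_out N e x w h]
      exact hw

end Pool.Agent.Q182.TD
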